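import Pool.Agent.Helper64.SPX.Spec3

/-!
# SPX, part K2 (helper90)
-/

set_option autoImplicit false

open Finset
open scoped InnerProductSpace

namespace Pool.Agent.Helper90.SPX

open Pool.Agent.Helper64.SPX
open scoped Classical

variable {ι ω : Type} [Fintype ι] [Fintype ω] {b : ω → E ι}

/-- the weights of the edges -/
noncomputable def pp (b : ω → E ι) (o o' : ω) : ℝ := -⟪b o, b o'⟫_ℝ

lemma pp_symm (o o' : ω) : pp b o o' = pp b o' o := by
  unfold pp
  rw [real_inner_comm]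

lemma pp_nonneg (hb : Obt b) {o o' : ω} (h : o ≠ o') : 0 ≤ pp b o o' := by
  have := hb.obt o o' h
  unfold pp
  linarith

lemma adj_iff {o o' : ω} : Adj b o o' ↔ 0 < pp b o o' := by
  unfold Adj pp
  constructor <;> intro h <;> linarith

lemma bS_compl (hb : Obt b) (K : Finset ω) : bS b K = - bS b Kᶜ := by
  have := Finset.sum_add_sum_compl K b
  rw [hb.sum] at this
  exact eq_neg_of_add_eq_zero_left this

lemma norm_bS (hb : Obt b) (K : Finset ω) :
    ‖bS b K‖ ^ 2 = ∑ k ∈ K, ∑ j ∈ Kᶜ, pp b k j := by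
  rw [← real_inner_self_eq_norm_sq]
  nth_rewrite 2 [bS_compl hb K]
  rw [inner_neg_right]
  unfold bS
  rw [sum_inner]
  simp_rw [inner_sum, pp, sum_neg_distrib]

lemma antisym (F : ω → ω → ℝ) (hF : ∀ k j, F k j = - F j k) (K : Finset ω) :
    ∑ k ∈ K, ∑ j ∈ K, F k j = 0 := by
  have h1 : ∑ k ∈ K, ∑ j ∈ K, F k j = - ∑ k ∈ K, ∑ j ∈ K, F k j := by
    calc ∑ k ∈ K, ∑ j ∈ K, F k j = ∑ k ∈ K, ∑ j ∈ K, - F j k :=
          sum_congr rfl fun k _ => sum_congr rfl fun j _ => hF k j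
      _ = - ∑ k ∈ K, ∑ j ∈ K, F j k := by simp_rw [sum_neg_distrib]
      _ = - ∑ k ∈ K, ∑ j ∈ K, F k j := by rw [sum_comm]
  linarith

lemma mem_vorB (hK1 : S_K1) (hb : Obt b) (x : E ι) :
    x ∈ vorB b ↔ ∀ K : Finset ω, K.Nonempty → K ≠ Finset.univ →
      ⟪bS b K, x⟫_ℝ ≤ ‖bS b K‖ ^ 2 / 2 := by
  rw [← (hK1 ι ω b hb).1]
  unfold HP.body fk
  constructor
  · intro h K h1 h2
    have := h (Fintype.equivFin (Prp ω) ⟨K, h1, h2⟩)
    simpa using this
  · intro h k
    exact h _ ((Fintype.equivFin (Prp ω)).symm k).2.1 ((Fintype.equivFin (Prp ω)).symm k).2.2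

theorem K2 (hK0 : S_K0) (hK1 : S_K1) : S_K2 := by
  intro ι ω _ _ b hb ρ
  set F : ω → ω → ℝ := fun k j => pp b k j * ((ρ j - ρ k).sign : ℝ) with hF
  have hanti : ∀ k j, F k j = - F j k := by
    intro k j
    simp only [hF]
    rw [pp_symm k j, show ρ j - ρ k = -(ρ k - ρ j) by ring, Int.sign_neg]
    push_cast
    ring
  obtain ⟨x, hx⟩ := (hK0 ι ω b hb).2.2 (fun k => (1 / 2) * ∑ j, F k j) (by
    rw [← mul_sum, antisym F hanti univ, mul_zero])
  have hxK : ∀ K : Finset ω, ⟪bS b K, x⟫_ℝ = (1 / 2) * ∑ k ∈ K, ∑ j ∈ Kᶜ, F k j := by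
    intro K
    unfold bS
    rw [sum_inner]
    simp_rw [hx]
    rw [← mul_sum]
    congr 1
    have : ∀ k ∈ K, ∑ j, F k j = ∑ j ∈ K, F k j + ∑ j ∈ Kᶜ, F k j := fun k _ =>
      (sum_add_sum_compl K (F k)).symm
    rw [sum_congr rfl this, sum_add_distrib, antisym F hanti K, zero_add]
  have hdiff : ∀ K : Finset ω, ‖bS b K‖ ^ 2 / 2 - ⟪bS b K, x⟫_ℝ
      = (1 / 2) * ∑ k ∈ K, ∑ j ∈ Kᶜ, (pp b k j - F k j) := by
    intro K
    rw [hxK, norm_bS hb]
    simp_rw [sum_sub_distrib]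
    ring
  have hterm : ∀ K : Finset ω, ∀ k ∈ K, ∀ j ∈ Kᶜ, 0 ≤ pp b k j - F k j ∧
      (pp b k j - F k j = 0 ↔ (Adj b k j → ρ k < ρ j)) := by
    intro K k hk j hj
    have hne : k ≠ j := by
      rintro rfl
      exact (mem_compl.1 hj) hk
    have h0 := pp_nonneg hb hne
    simp only [hF]
    rw [adj_iff]
    rcases lt_trichotomy (ρ k) (ρ j) with h | h | h
    · have : (ρ j - ρ k).sign = 1 := Int.sign_eq_one_of_pos (by omega)
      rw [this]
      simp [h]
    · have : (ρ j - ρ k).sign = 0 := by rw [h]; simp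
      rw [this]
      simp only [Int.cast_zero, mul_zero, sub_zero, h0, true_and, h, lt_irrefl, imp_false,
        not_lt]
      constructor
      · intro e; exact e.le
      · intro e; exact le_antisymm e h0
    · have : (ρ j - ρ k).sign = -1 := Int.sign_eq_neg_one_of_neg (by omega)
      rw [this]
      have h2 : ¬ ρ k < ρ j := not_lt.2 h.le
      simp only [h2, imp_false, not_lt]
      push_cast
      refine ⟨by linarith, ⟨fun e => by linarith, fun e => by linarith⟩⟩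
  refine ⟨x, ?_, ?_⟩
  · rw [mem_vorB hK1 hb]
    intro K _ _
    have h1 := hdiff K
    have h2 : 0 ≤ ∑ k ∈ K, ∑ j ∈ Kᶜ, (pp b k j - F k j) :=
      sum_nonneg fun k hk => sum_nonneg fun j hj => (hterm K k hk j hj).1
    linarith
  · intro K _ _
    have h1 := hdiff K
    unfold Tight
    constructor
    · intro ht k hk j hj ha
      have h0 : ∑ k ∈ K, ∑ j ∈ Kᶜ, (pp b k j - F k j) = 0 := by
        rw [ht] at h1
        linarith
      rw [sum_eq_zero_iff_of_nonneg (fun k hk => sum_nonneg fun j hj => (hterm K k hk j hj).1)]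
        at h0
      have h2 := h0 k hk
      rw [sum_eq_zero_iff_of_nonneg (fun j hj => (hterm K k hk j hj).1)] at h2
      exact (hterm K k hk j (mem_compl.2 hj)).2.1 (h2 j (mem_compl.2 hj)) ha
    · intro h
      have h0 : ∑ k ∈ K, ∑ j ∈ Kᶜ, (pp b k j - F k j) = 0 :=
        sum_eq_zero fun k hk => sum_eq_zero fun j hj =>
          (hterm K k hk j hj).2.2 (h k hk j (mem_compl.1 hj))
      rw [h0, mul_zero] at h1
      linarith

end Pool.Agent.Helper90.SPX
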