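import Pool.Agent.Helper90.SPX.K2

/-!
# SPX, part K3 (helper90)
-/

set_option autoImplicit false
set_option linter.unusedSectionVars false

open Finset
open scoped InnerProductSpace Topology

namespace Pool.Agent.Helper90.SPX

open Pool.Agent.Helper64.SPX
open scoped Classical

variable {ι ω : Type} [Fintype ι] [Fintype ω] {b : ω → E ι}

lemma adj_symm {o o' : ω} (h : Adj b o o') : Adj b o' o := by
  unfold Adj at *
  rwa [real_inner_comm]

lemma bS_union {A B : Finset ω} (h : Disjoint A B) : bS b (A ∪ B) = bS b A + bS b B :=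
  sum_union h

lemma bS_univ (hb : Obt b) : bS b (univ : Finset ω) = 0 := hb.sum

lemma sum_ind (K : Finset ω) :
    ∑ o, (((if o ∈ K then 1 else 0 : ℤ)) : ℝ) • b o = bS b K := by
  unfold bS
  rw [← sum_filter_add_sum_filter_not univ (fun o => o ∈ K)]
  rw [sum_congr rfl (g := fun o => b o), sum_congr (s₁ := univ.filter fun o => o ∉ K) rfl
    (g := fun o => (0 : E ι))]
  · simp
  · intro o ho
    simp only [mem_filter] at ho
    simp [ho.2]
  · intro o ho
    simp only [mem_filter] at ho
    simp [ho.2]

lemma le_all {x : E ι} (hx : x ∈ vorB b) (K : Finset ω) :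
    ⟪bS b K, x⟫_ℝ ≤ ‖bS b K‖ ^ 2 / 2 := by
  have h := hx (fun o => if o ∈ K then 1 else 0)
  rw [sum_ind] at h
  have h2 : ‖x‖ ^ 2 ≤ ‖x - bS b K‖ ^ 2 := pow_le_pow_left₀ (norm_nonneg _) h 2
  rw [norm_sub_sq_real, real_inner_comm] at h2
  linarith

lemma tight_iff_norm (x : E ι) (K : Finset ω) : Tight b x K ↔ ‖x - bS b K‖ = ‖x‖ := by
  rw [← sq_eq_sq₀ (norm_nonneg _) (norm_nonneg _), norm_sub_sq_real, real_inner_comm]
  unfold Tight
  constructor <;> intro h <;> linarith

lemma vor_shift {x : E ι} (hx : x ∈ vorB b) {K : Finset ω} (ht : Tight b x K) :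
    x - bS b K ∈ vorB b := by
  intro c
  rw [(tight_iff_norm x K).1 ht]
  have h := hx (fun o => c o + if o ∈ K then 1 else 0)
  have e : ∑ o, ((c o + if o ∈ K then 1 else 0 : ℤ) : ℝ) • b o
      = ∑ o, (c o : ℝ) • b o + bS b K := by
    rw [← sum_ind K, ← sum_add_distrib]
    refine sum_congr rfl fun o _ => ?_
    rw [← add_smul]
    push_cast
    rfl
  rw [e] at h
  calc ‖x‖ ≤ _ := h
    _ = ‖x - bS b K - ∑ o, (c o : ℝ) • b o‖ := by congr 1; abel

lemma vor_unshift {x : E ι} {K : Finset ω} (hx : x - bS b K ∈ vorB b) (ht : Tight b x K) :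
    x ∈ vorB b := by
  intro c
  rw [← (tight_iff_norm x K).1 ht]
  have h := hx (fun o => c o - if o ∈ K then 1 else 0)
  have e : ∑ o, ((c o - if o ∈ K then 1 else 0 : ℤ) : ℝ) • b o
      = ∑ o, (c o : ℝ) • b o - bS b K := by
    rw [← sum_ind K, ← sum_sub_distrib]
    refine sum_congr rfl fun o _ => ?_
    rw [← sub_smul]
    push_cast
    rfl
  rw [e] at h
  calc _ ≤ _ := h
    _ = ‖x - ∑ o, (c o : ℝ) • b o‖ := by congr 1; abel

lemma vor_neg {x : E ι} (hx : x ∈ vorB b) : -x ∈ vorB b := by
  intro c
  have h := hx (fun o => - c o)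
  have e : ∑ o, ((- c o : ℤ) : ℝ) • b o = - ∑ o, (c o : ℝ) • b o := by
    rw [← sum_neg_distrib]
    refine sum_congr rfl fun o _ => ?_
    rw [← neg_smul]
    push_cast
    rfl
  rw [e] at h
  calc ‖-x‖ = ‖x‖ := norm_neg x
    _ ≤ _ := h
    _ = ‖-(-x - ∑ o, (c o : ℝ) • b o)‖ := by congr 1; abel
    _ = _ := norm_neg _

/-! ### indices -/

/-- the index of a set -/
noncomputable def idx (b : ω → E ι) (K : Finset ω) (h : K.Nonempty ∧ K ≠ Finset.univ) :
    Fin (fk b).N := Fintype.equivFin (Prp ω) ⟨K, h⟩

lemma u_idx (K : Finset ω) (h : K.Nonempty ∧ K ≠ Finset.univ) :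
    (fk b).u (idx b K h) = bS b K := by
  simp [fk, idx]

lemma act_idx (x : E ι) (K : Finset ω) (h : K.Nonempty ∧ K ≠ Finset.univ) :
    idx b K h ∈ (fk b).act x ↔ Tight b x K := by
  show ⟪(fk b).u (idx b K h), x⟫_ℝ = (fk b).h (idx b K h) ↔ _
  unfold Tight
  simp [fk, idx]

lemma exists_idx (j : Fin (fk b).N) : ∃ K h, j = idx b K h :=
  ⟨_, ((Fintype.equivFin (Prp ω)).symm j).2,
    (Equiv.apply_symm_apply (Fintype.equivFin (Prp ω)) j).symm⟩

lemma idx_inj {K K' : Finset ω} {h : K.Nonempty ∧ K ≠ Finset.univ}
    {h' : K'.Nonempty ∧ K' ≠ Finset.univ} (e : idx b K h = idx b K' h') : K = K' := by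
  unfold idx at e
  have := (Fintype.equivFin (Prp ω)).injective e
  simpa using this

/-! ### graph facts -/

/-- sets which are not the union of two parts without edges -/
def Conn (b : ω → E ι) (S : Finset ω) : Prop := ∀ A B : Finset ω, A ∪ B = S → Disjoint A B →
  A.Nonempty → B.Nonempty → ∃ a ∈ A, ∃ c ∈ B, Adj b a c

lemma inner_zero (hb : Obt b) {A B : Finset ω} (hd : Disjoint A B)
    (hn : ∀ a ∈ A, ∀ c ∈ B, ¬ Adj b a c) : ⟪bS b A, bS b B⟫_ℝ = 0 := by
  unfold bS
  rw [sum_inner]
  refine sum_eq_zero fun a ha => ?_
  rw [inner_sum]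
  refine sum_eq_zero fun c hc => ?_
  have hne : a ≠ c := fun e => (disjoint_left.1 hd ha) (e ▸ hc)
  have h1 := hb.obt a c hne
  have h2 := hn a ha c hc
  unfold Adj at h2
  linarith

/-- uncrossing -/
lemma unc (hb : Obt b) {s : E ι} (hs : s ∈ vorB b) {T A B : Finset ω} (h1 : Disjoint T A)
    (h2 : Disjoint T B) (h3 : Disjoint A B) (hn : ∀ a ∈ A, ∀ c ∈ B, ¬ Adj b a c)
    (t1 : Tight b s T) (t2 : Tight b s (T ∪ A ∪ B)) : Tight b s (T ∪ A) := by
  have i1 := le_all hs (T ∪ A)
  have i2 := le_all hs (T ∪ B)
  have h4 : Disjoint (T ∪ A) B := disjoint_union_left.2 ⟨h2, h3⟩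
  have h0 := inner_zero hb h3 hn
  unfold Tight at t1 t2 ⊢
  rw [bS_union h4, bS_union h1] at t2
  rw [bS_union h1] at i1 ⊢
  rw [bS_union h2] at i2
  have e1 : ‖bS b T + bS b A‖ ^ 2 = ‖bS b T‖ ^ 2 + 2 * ⟪bS b T, bS b A⟫_ℝ + ‖bS b A‖ ^ 2 :=
    norm_add_sq_real _ _
  have e2 : ‖bS b T + bS b B‖ ^ 2 = ‖bS b T‖ ^ 2 + 2 * ⟪bS b T, bS b B⟫_ℝ + ‖bS b B‖ ^ 2 :=
    norm_add_sq_real _ _
  have e3 : ‖bS b T + bS b A + bS b B‖ ^ 2 = ‖bS b T + bS b A‖ ^ 2
      + 2 * ⟪bS b T + bS b A, bS b B⟫_ℝ + ‖bS b B‖ ^ 2 := norm_add_sq_real _ _
  rw [inner_add_left] at e3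
  rw [inner_add_left, inner_add_left] at t2
  rw [inner_add_left] at i1 i2 ⊢
  rw [e3, e1] at t2
  rw [e1] at i1 ⊢
  rw [e2] at i2
  linarith

lemma tight_univ (hb : Obt b) (s : E ι) : Tight b s univ := by
  unfold Tight
  rw [bS_univ hb]
  simp

/-- off `i` the graph is connected: only `{i}` has all edges going out of `i` -/
lemma only_i (hb : Obt b) (hK0 : S_K0) (h2c : TwoConn (Adj b)) (i : ω) (K : Finset ω)
    (hK : K.Nonempty) (hK' : K ≠ univ) (hne : K ≠ {i}) :
    ∃ k ∈ K, k ≠ i ∧ ∃ j, j ∉ K ∧ Adj b k j := by
  by_cases hi : i ∈ K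
  · have hR : (K.erase i).Nonempty := by
      rw [nonempty_iff_ne_empty]
      intro he
      rw [erase_eq_empty_iff] at he
      rcases he with he | he
      · exact hK.ne_empty he
      · exact hne he
    obtain ⟨j0, hj0⟩ : ∃ j, j ∉ K := by
      by_contra hcon
      push Not at hcon
      exact hK' (eq_univ_of_forall hcon)
    have hj0i : j0 ≠ i := fun e => hj0 (e ▸ hi)
    obtain ⟨k, hk, j, hji, hj, ha⟩ := h2c i (K.erase i) (notMem_erase i K) hR
      ⟨j0, hj0i, fun h => hj0 (mem_of_mem_erase h)⟩
    exact ⟨k, mem_of_mem_erase hk, ne_of_mem_erase hk, j,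
      fun h => hj (mem_erase.2 ⟨hji, h⟩), ha⟩
  · by_cases hj : ∃ j, j ≠ i ∧ j ∉ K
    · obtain ⟨k, hk, j, hji, hj, ha⟩ := h2c i K hi hK hj
      exact ⟨k, hk, fun e => hi (e ▸ hk), j, hj, ha⟩
    · obtain ⟨k, hk, j, hj, ha⟩ := ((hK0 ι ω b hb).1 K hK hK').2
      exact ⟨k, hk, fun e => hi (e ▸ hk), j, hj, ha⟩

/-! ### the sixfold ridges -/

lemma six (hK0 : S_K0) (hK1 : S_K1) (hb : Obt b) {i : ω}
    {K' : Finset ω} (hiK : i ∈ K') (hJ : (K'.erase i).Nonempty) (hC : (K'ᶜ).Nonempty)
    (hCi : ∃ c ∈ K'ᶜ, Adj b c i) {p : E ι} (hp : p ∈ vorB b)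
    (hpt : ∀ K : Finset ω, K.Nonempty → K ≠ univ → (Tight b p K ↔ K = {i} ∨ K = K'))
    (hi : ({i} : Finset ω).Nonempty ∧ ({i} : Finset ω) ≠ univ) :
    (fk b).Six (idx b {i} hi) p := by
  have hbody : (fk b).body = vorB b := (hK1 ι ω b hb).1
  obtain ⟨c0, hc0⟩ := hC
  have hc0' : c0 ∉ K' := mem_compl.1 hc0
  obtain ⟨k0, hk0⟩ := hJ
  have hk0i : k0 ≠ i := ne_of_mem_erase hk0
  have hk0K : k0 ∈ K' := mem_of_mem_erase hk0
  have hprop : K'.Nonempty ∧ K' ≠ univ := ⟨⟨i, hiK⟩, fun e => hc0' (e ▸ mem_univ c0)⟩
  have hc0i : c0 ≠ i := fun e => hc0' (e ▸ hiK)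
  have hti : Tight b p {i} := (hpt _ hi.1 hi.2).2 (Or.inl rfl)
  have htK : Tight b p K' := (hpt _ hprop.1 hprop.2).2 (Or.inr rfl)
  refine ⟨hbody ▸ hp, idx b K' hprop, ?_, ?_, ?_⟩
  · ext j
    obtain ⟨K, hK, rfl⟩ := exists_idx j
    rw [act_idx, hpt K hK.1 hK.2]
    simp only [Set.mem_insert_iff, Set.mem_singleton_iff]
    constructor
    · rintro (rfl | rfl)
      · exact Or.inl rfl
      · exact Or.inr rfl
    · rintro (e | e)
      · exact Or.inl (idx_inj e)
      · exact Or.inr (idx_inj e)
  · rw [u_idx, u_idx, LinearIndependent.pair_iff]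
    intro α β h
    obtain ⟨x, hx⟩ := (hK0 ι ω b hb).2.2
      (fun o => if o = k0 then 1 else if o = c0 then -1 else 0) (by
        have : ∀ o, (if o = k0 then (1 : ℝ) else if o = c0 then -1 else 0)
            = (if o = k0 then 1 else 0) + (if o = c0 then -1 else 0) := by
          intro o
          by_cases h1 : o = k0
          · have h2 : o ≠ c0 := fun e => hc0' (e ▸ h1 ▸ hk0K)
            simp [h1, h2, h1 ▸ h2]
          · simp [h1]
        rw [sum_congr rfl fun o _ => this o, sum_add_distrib]
        simp)
    obtain ⟨y, hy⟩ := (hK0 ι ω b hb).2.2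
      (fun o => if o = i then 1 else if o = c0 then -1 else 0) (by
        have : ∀ o, (if o = i then (1 : ℝ) else if o = c0 then -1 else 0)
            = (if o = i then 1 else 0) + (if o = c0 then -1 else 0) := by
          intro o
          by_cases h1 : o = i
          · have h2 : o ≠ c0 := fun e => hc0' (e ▸ h1 ▸ hiK)
            simp [h1, h2, h1 ▸ h2]
          · simp [h1]
        rw [sum_congr rfl fun o _ => this o, sum_add_distrib]
        simp)
    have hsum : ∀ (z : E ι) (o1 : ω), o1 ∈ K' →
        (∀ o, ⟪b o, z⟫_ℝ = if o = o1 then 1 else if o = c0 then -1 else 0) →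
        ⟪bS b K', z⟫_ℝ = 1 := by
      intro z o1 ho1 hz
      unfold bS
      rw [sum_inner]
      rw [sum_congr rfl fun o _ => hz o]
      have : ∀ o ∈ K', (if o = o1 then (1 : ℝ) else if o = c0 then -1 else 0)
          = if o = o1 then 1 else 0 := by
        intro o ho
        have h2 : o ≠ c0 := fun e => hc0' (e ▸ ho)
        simp [h2]
      rw [sum_congr rfl this]
      simp [ho1]
    have x1 := hsum x k0 hk0K hx
    have y1 := hsum y i hiK hy
    have x2 : ⟪bS b {i}, x⟫_ℝ = 0 := by
      unfold bS
      rw [sum_singleton, hx]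
      simp [Ne.symm hk0i, Ne.symm hc0i]
    have y2 : ⟪bS b {i}, y⟫_ℝ = 1 := by
      unfold bS
      rw [sum_singleton, hy]
      simp
    have e1 : ⟪α • bS b {i} + β • bS b K', x⟫_ℝ = 0 := by rw [h, inner_zero_left]
    have e2 : ⟪α • bS b {i} + β • bS b K', y⟫_ℝ = 0 := by rw [h, inner_zero_left]
    rw [inner_add_left, real_inner_smul_left, real_inner_smul_left, x1, x2] at e1
    rw [inner_add_left, real_inner_smul_left, real_inner_smul_left, y1, y2] at e2
    constructor <;> linarith
  · refine ⟨p - bS b K', hbody ▸ vor_shift hp htK, 1, 1, one_pos, one_pos, ?_⟩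
    have hCb : bS b K'ᶜ = - bS b K' := by
      have := bS_compl hb K'
      rw [this, neg_neg]
    have hiC : i ∉ K'ᶜ := fun h => (mem_compl.1 h) hiK
    have hCib : bS b (insert i K'ᶜ) = bS b {i} - bS b K' := by
      have : insert i K'ᶜ = {i} ∪ K'ᶜ := rfl
      rw [this, bS_union (by simpa using hiC), hCb]
      abel
    -- the tight sets at `s'`
    have key : ∀ M : Finset ω, M.Nonempty → M ≠ univ →
        (Tight b (p - bS b K') M ↔ M = K'ᶜ ∨ M = insert i K'ᶜ) := by
      intro M hM hM'
      have hn : ‖p - bS b K'‖ = ‖p‖ := (tight_iff_norm p K').1 htK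
      rw [tight_iff_norm, hn]
      have e : p - bS b K' - bS b M = p - ∑ o, (((if o ∈ K' then 1 else 0)
          + (if o ∈ M then 1 else 0) : ℤ) : ℝ) • b o := by
        have : ∑ o, (((if o ∈ K' then 1 else 0) + (if o ∈ M then 1 else 0) : ℤ) : ℝ) • b o
            = bS b K' + bS b M := by
          rw [← sum_ind K', ← sum_ind M, ← sum_add_distrib]
          refine sum_congr rfl fun o _ => ?_
          rw [← add_smul]
          push_cast
          rfl
        rw [this]
        abel
      rw [e, (hK1 ι ω b hb).2.2 p hp]
      constructor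
      · rintro ⟨h1, h2⟩
        -- level 1
        have l1 : K' ∪ M = univ ∨ K' ∪ M = K' := by
          by_cases hu : K' ∪ M = univ
          · exact Or.inl hu
          · right
            have ht := h2 1 (K' ∪ M) (by
              intro o
              by_cases a1 : o ∈ K' <;> by_cases a2 : o ∈ M <;> simp [a1, a2])
              ⟨i, mem_union_left _ hiK⟩ hu
            rcases (hpt _ ⟨i, mem_union_left _ hiK⟩ hu).1 ht with h | h
            · exfalso
              have : k0 ∈ ({i} : Finset ω) := h ▸ mem_union_left _ hk0K
              exact hk0i (mem_singleton.1 this)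
            · exact h
        have l2 : K' ∩ M = ∅ ∨ K' ∩ M = {i} ∨ K' ∩ M = K' := by
          by_cases he : (K' ∩ M).Nonempty
          · right
            have hu : K' ∩ M ≠ univ := by
              intro h
              have : c0 ∈ K' ∩ M := h ▸ mem_univ c0
              exact hc0' (mem_inter.1 this).1
            have ht := h2 2 (K' ∩ M) (by
              intro o
              by_cases a1 : o ∈ K' <;> by_cases a2 : o ∈ M <;> simp [a1, a2])
              he hu
            exact (hpt _ he hu).1 ht
          · left
            exact not_nonempty_iff_eq_empty.1 he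
        obtain ⟨c1, hc1, hac⟩ := hCi
        have hc1' : c1 ∉ K' := mem_compl.1 hc1
        rcases l1 with l1 | l1
        · have hCM : K'ᶜ ⊆ M := by
            intro o ho
            have : o ∈ K' ∪ M := l1 ▸ mem_univ o
            rcases mem_union.1 this with h | h
            · exact absurd h (mem_compl.1 ho)
            · exact h
          rcases l2 with l2 | l2 | l2
          · left
            apply Subset.antisymm _ hCM
            intro o ho
            rw [mem_compl]
            intro h
            have : o ∈ K' ∩ M := mem_inter.2 ⟨h, ho⟩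
            rw [l2] at this
            exact notMem_empty _ this
          · right
            apply Subset.antisymm
            · intro o ho
              rw [mem_insert, mem_compl]
              by_cases h : o ∈ K'
              · left
                have : o ∈ K' ∩ M := mem_inter.2 ⟨h, ho⟩
                rw [l2] at this
                exact mem_singleton.1 this
              · exact Or.inr h
            · intro o ho
              rw [mem_insert] at ho
              rcases ho with rfl | ho
              · have : o ∈ K' ∩ M := l2 ▸ mem_singleton_self o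
                exact (mem_inter.1 this).2
              · exact hCM ho
          · exfalso
            apply hM'
            rw [← l1]
            apply (union_eq_right.2 _).symm
            intro o ho
            have h3 : o ∈ K' ∩ M := by
              rw [l2]
              exact ho
            exact (mem_inter.1 h3).2
        · exfalso
          have hMK : M ⊆ K' := union_eq_left.1 l1
          have hKM : K' ∩ M = M := inter_eq_right.2 hMK
          have hiM : i ∈ M := by
            rcases l2 with l2 | l2 | l2
            · rw [hKM] at l2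
              exact absurd l2 hM.ne_empty
            · rw [hKM] at l2
              rw [l2]
              exact mem_singleton_self i
            · rw [hKM] at l2
              rw [l2]
              exact hiK
          have hc1M : c1 ∉ M := fun h => hc1' (hMK h)
          have := h1 c1 i hac
          simp [hc1', hc1M, hiK, hiM] at this
      · rintro (rfl | rfl)
        · have hone : ∀ o, ((if o ∈ K' then 1 else 0) + (if o ∈ K'ᶜ then 1 else 0) : ℤ) = 1 := by
            intro o
            by_cases h : o ∈ K' <;> simp [h]
          refine ⟨?_, ?_⟩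
          · intro o o' _
            rw [hone, hone]
            simp
          · intro m K hKm hKn hKu
            exfalso
            obtain ⟨o, ho⟩ := hKn
            have h1 := (hKm o).1 ho
            rw [hone] at h1
            exact hKu (eq_univ_of_forall fun o => (hKm o).2 (by rw [hone]; exact h1))
        · have hone : ∀ o, ((if o ∈ K' then 1 else 0) + (if o ∈ insert i K'ᶜ then 1 else 0) : ℤ)
              = if o = i then 2 else 1 := by
            intro o
            by_cases h : o ∈ K'
            · by_cases h' : o = i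
              · subst h'
                simp [h]
              · simp [h, h']
            · have h' : o ≠ i := fun e => h (e ▸ hiK)
              simp [h, h']
          refine ⟨?_, ?_⟩
          · intro o o' _
            rw [hone, hone]
            by_cases h : o = i <;> by_cases h' : o' = i <;> simp [h, h']
          · intro m K hKm hKn hKu
            have hKm' : ∀ o, o ∈ K ↔ m ≤ if o = i then 2 else 1 := fun o => by
              rw [hKm o, hone]
            have hK1 : K = {i} := by
              obtain ⟨o, ho⟩ := hKn
              have hm2 : m ≤ 2 := by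
                have := (hKm' o).1 ho
                split at this <;> omega
              have hm1 : ¬ m ≤ 1 := by
                intro h
                apply hKu
                apply eq_univ_of_forall
                intro o
                rw [hKm']
                split <;> omega
              ext o
              rw [hKm', mem_singleton]
              by_cases h : o = i
              · simp [h, hm2]
              · simp [h, hm1]
            rw [hK1]
            exact hti
    have hCu : K'ᶜ ≠ univ := by
      intro h
      exact hiC (h ▸ mem_univ i)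
    have hCiu : insert i K'ᶜ ≠ univ := by
      intro h
      have : k0 ∈ insert i K'ᶜ := h ▸ mem_univ k0
      rw [mem_insert, mem_compl] at this
      rcases this with h | h
      · exact hk0i h
      · exact h hk0K
    ext z
    unfold HP.cone HP.coneI
    simp only [u_idx, one_smul]
    constructor
    · intro h
      have a1 := h (idx b K'ᶜ ⟨⟨c0, hc0⟩, hCu⟩) ((act_idx _ _ _).2
        ((key _ ⟨c0, hc0⟩ hCu).2 (Or.inl rfl)))
      have a2 := h (idx b (insert i K'ᶜ) ⟨insert_nonempty _ _, hCiu⟩) ((act_idx _ _ _).2
        ((key _ (insert_nonempty _ _) hCiu).2 (Or.inr rfl)))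
      rw [u_idx, hCb, inner_neg_left] at a1
      rw [u_idx, hCib] at a2
      refine ⟨by linarith, ?_⟩
      rw [inner_sub_left] at a2 ⊢
      linarith
    · rintro ⟨a1, a2⟩ j hj
      obtain ⟨M, hM, rfl⟩ := exists_idx j
      rw [act_idx, key M hM.1 hM.2] at hj
      rw [u_idx]
      rcases hj with rfl | rfl
      · rw [hCb, inner_neg_left]
        linarith
      · rw [hCib, inner_sub_left]
        rw [inner_sub_left] at a2
        linarith

/-! ### the tight sets at a point -/

/-- from a second tight set to a good one -/
lemma good_set (hb : Obt b) (h2c : TwoConn (Adj b)) {i : ω} {s : E ι} (hs : s ∈ vorB b)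
    (hti : Tight b s {i}) {K : Finset ω} (hiK : i ∈ K) (hKi : K ≠ {i}) (hKu : K ≠ univ)
    (htK : Tight b s K) :
    ∃ C : Finset ω, C.Nonempty ∧ i ∉ C ∧ ((Cᶜ).erase i).Nonempty ∧ Tight b s Cᶜ ∧ Conn b C ∧
      Conn b ((Cᶜ).erase i) := by
  -- minimal J1
  have hJ0 : (K.erase i).Nonempty := by
    rw [nonempty_iff_ne_empty]
    intro he
    rw [erase_eq_empty_iff] at he
    rcases he with he | he
    · rw [he] at hiK; exact notMem_empty _ hiK
    · exact hKi he
  set F := (K.erase i).powerset.filter (fun J => J.Nonempty ∧ Tight b s (insert i J)) with hF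
  have hFn : F.Nonempty := ⟨K.erase i, by
    rw [hF, mem_filter, mem_powerset]
    exact ⟨subset_rfl, hJ0, by rwa [insert_erase hiK]⟩⟩
  obtain ⟨J1, hJ1, hmin⟩ := exists_min_image F Finset.card hFn
  rw [hF, mem_filter, mem_powerset] at hJ1
  obtain ⟨hJ1K, hJ1n, hJ1t⟩ := hJ1
  have hiJ1 : i ∉ J1 := fun h => (notMem_erase i K) (hJ1K h)
  have hJ1c : Conn b J1 := by
    intro A B hAB hd hA hB
    by_contra hcon
    push Not at hcon
    have hiA : i ∉ A := fun h => hiJ1 (hAB ▸ mem_union_left _ h)
    have hiB : i ∉ B := fun h => hiJ1 (hAB ▸ mem_union_right _ h)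
    have ht := unc hb hs (T := {i}) (A := A) (B := B) (by simpa using hiA) (by simpa using hiB)
      hd hcon hti (by
        rw [union_assoc, hAB]
        exact hJ1t)
    have hAF : A ∈ F := by
      rw [hF, mem_filter, mem_powerset]
      exact ⟨(subset_union_left.trans hAB.subset).trans hJ1K, hA, ht⟩
    have := hmin A hAF
    rw [← hAB, card_union_of_disjoint hd] at this
    have := card_pos.2 hB
    omega
  -- minimal C
  set R : Finset ω := (insert i J1)ᶜ with hR
  have hRn : R.Nonempty := by
    obtain ⟨j0, hj0⟩ : ∃ j, j ∉ K := by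
      by_contra hcon
      push Not at hcon
      exact hKu (eq_univ_of_forall hcon)
    refine ⟨j0, ?_⟩
    rw [hR, mem_compl, mem_insert]
    rintro (rfl | h)
    · exact hj0 hiK
    · exact hj0 (mem_of_mem_erase (hJ1K h))
  set G := R.powerset.filter (fun C => C.Nonempty ∧ ∀ a ∈ R \ C, ∀ c ∈ C, ¬ Adj b a c) with hG
  have hGn : G.Nonempty := ⟨R, by
    rw [hG, mem_filter, mem_powerset]
    refine ⟨subset_rfl, hRn, ?_⟩
    simp⟩
  obtain ⟨C, hC, hCmin⟩ := exists_min_image G Finset.card hGn
  rw [hG, mem_filter, mem_powerset] at hC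
  obtain ⟨hCR, hCn, hCe⟩ := hC
  have hCc : Conn b C := by
    intro A B hAB hd hA hB
    by_contra hcon
    push Not at hcon
    have hAG : A ∈ G := by
      rw [hG, mem_filter, mem_powerset]
      refine ⟨(subset_union_left.trans hAB.subset).trans hCR, hA, ?_⟩
      intro a ha c hc had
      rw [mem_sdiff] at ha
      by_cases haC : a ∈ C
      · have haB : a ∈ B := by
          rw [← hAB, mem_union] at haC
          tauto
        exact hcon c hc a haB (adj_symm had)
      · exact hCe a (mem_sdiff.2 ⟨ha.1, haC⟩) c (hAB ▸ mem_union_left _ hc) had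
    have := hCmin A hAG
    rw [← hAB, card_union_of_disjoint hd] at this
    have := card_pos.2 hB
    omega
  have hiC : i ∉ C := by
    intro h
    have := hCR h
    rw [hR, mem_compl, mem_insert] at this
    exact this (Or.inl rfl)
  have hJC : ∀ j ∈ J1, j ∉ C := by
    intro j hj h
    have := hCR h
    rw [hR, mem_compl, mem_insert] at this
    exact this (Or.inr hj)
  have hJ1sub : J1 ⊆ (Cᶜ).erase i := by
    intro j hj
    rw [mem_erase, mem_compl]
    exact ⟨fun e => hiJ1 (e ▸ hj), hJC j hj⟩
  refine ⟨C, hCn, hiC, hJ1n.mono hJ1sub, ?_, hCc, ?_⟩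
  · -- tight
    have e1 : insert i J1 ∪ (R \ C) = Cᶜ := by
      ext o
      rw [mem_union, mem_sdiff, hR, mem_compl, mem_compl]
      constructor
      · rintro (h | h)
        · rw [mem_insert] at h
          rcases h with rfl | h
          · exact hiC
          · exact hJC o h
        · exact h.2
      · intro h
        by_cases h' : o ∈ insert i J1
        · exact Or.inl h'
        · exact Or.inr ⟨h', h⟩
    have e2 : insert i J1 ∪ (R \ C) ∪ C = univ := by
      rw [e1]
      rw [union_comm]
      exact union_compl C
    have ht := unc hb hs (T := insert i J1) (A := R \ C) (B := C) ?_ ?_ ?_ hCe hJ1t (by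
      rw [e2]; exact tight_univ hb s)
    · rw [e1] at ht
      exact ht
    · rw [disjoint_left]
      intro o h1 h2
      rw [mem_sdiff, hR, mem_compl] at h2
      exact h2.1 h1
    · rw [disjoint_left]
      intro o h1 h2
      have := hCR h2
      rw [hR, mem_compl] at this
      exact this h1
    · exact sdiff_disjoint
  · -- connected
    intro A B hAB hd hA hB
    by_contra hcon
    push Not at hcon
    have hsym : ∀ a ∈ B, ∀ c ∈ A, ¬ Adj b a c := fun a ha c hc h => hcon c hc a ha (adj_symm h)
    -- the part which does not contain J1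
    have hpart : J1 ⊆ A ∨ J1 ⊆ B := by
      by_contra hh
      push Not at hh
      obtain ⟨h1, h2⟩ := hh
      have hJAB : ∀ j ∈ J1, j ∈ A ∨ j ∈ B := fun j hj => by
        have := hJ1sub hj
        rw [← hAB, mem_union] at this
        exact this
      obtain ⟨a, ha, c, hc, had⟩ := hJ1c (J1 ∩ A) (J1 ∩ B) (by
        ext o
        rw [mem_union, mem_inter, mem_inter]
        constructor
        · rintro (h | h) <;> exact h.1
        · intro h
          rcases hJAB o h with h' | h'
          · exact Or.inl ⟨h, h'⟩
          · exact Or.inr ⟨h, h'⟩)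
        (hd.mono inter_subset_right inter_subset_right)
        (by
          rw [not_subset] at h2
          obtain ⟨o, ho, ho'⟩ := h2
          exact ⟨o, mem_inter.2 ⟨ho, (hJAB o ho).resolve_right ho'⟩⟩)
        (by
          rw [not_subset] at h1
          obtain ⟨o, ho, ho'⟩ := h1
          exact ⟨o, mem_inter.2 ⟨ho, (hJAB o ho).resolve_left ho'⟩⟩)
      exact hcon a (mem_inter.1 ha).2 c (mem_inter.1 hc).2 had
    have main : ∀ A B : Finset ω, A ∪ B = (Cᶜ).erase i → Disjoint A B → B.Nonempty →
        (∀ a ∈ A, ∀ c ∈ B, ¬ Adj b a c) → J1 ⊆ A → False := by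
      intro A B hAB hd hB hcon hJA
      have hiB : i ∉ B := fun h => (notMem_erase i _) (hAB ▸ mem_union_right A h)
      obtain ⟨j1, hj1⟩ := hJ1n
      obtain ⟨k, hk, j, hji, hj, had⟩ := h2c i B hiB hB
        ⟨j1, fun e => hiJ1 (e ▸ hj1), fun h => (disjoint_left.1 hd (hJA hj1)) h⟩
      by_cases hjC : j ∈ C
      · -- k in R \ C
        have hkR : k ∈ R \ C := by
          have hk' : k ∈ (Cᶜ).erase i := hAB ▸ mem_union_right A hk
          rw [mem_erase, mem_compl] at hk'
          rw [mem_sdiff, hR, mem_compl, mem_insert]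
          refine ⟨?_, hk'.2⟩
          rintro (e | e)
          · exact hk'.1 e
          · exact (disjoint_left.1 hd (hJA e)) hk
        exact hCe k hkR j hjC had
      · have hjA : j ∈ A := by
          have : j ∈ A ∪ B := by
            rw [hAB, mem_erase, mem_compl]
            exact ⟨hji, hjC⟩
          rcases mem_union.1 this with h | h
          · exact h
          · exact absurd h hj
        exact hcon j hjA k hk (adj_symm had)
    rcases hpart with h | h
    · exact main A B hAB hd hB hcon h
    · exact main B A (by rw [union_comm]; exact hAB) hd.symm hA hsym h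

lemma split_or {S M : Finset ω} (hc : Conn b S) (h : ∀ a ∈ S, ∀ c ∈ S, a ∈ M → c ∉ M →
    ¬ Adj b a c) : S ⊆ M ∨ ∀ o ∈ S, o ∉ M := by
  by_contra hcon
  push Not at hcon
  obtain ⟨h1, o, ho, hoM⟩ := hcon
  rw [not_subset] at h1
  obtain ⟨o', ho', ho'M⟩ := h1
  obtain ⟨a, ha, c, hcc, had⟩ := hc (S ∩ M) (S \ M) (by
    ext x
    rw [mem_union, mem_inter, mem_sdiff]
    tauto) (by
      rw [disjoint_left]
      intro x hx hx'
      exact (mem_sdiff.1 hx').2 (mem_inter.1 hx).2) ⟨o, mem_inter.2 ⟨ho, hoM⟩⟩
    ⟨o', mem_sdiff.2 ⟨ho', ho'M⟩⟩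
  exact h a (mem_inter.1 ha).1 c (mem_sdiff.1 hcc).1 (mem_inter.1 ha).2 (mem_sdiff.1 hcc).2 had

theorem K3 (hK0 : S_K0) (hK1 : S_K1) (hK2 : S_K2) (hK4 : S_K4) : S_K3 := by
  intro ι ω _ _ b hb h2c hcard i
  have hbody : (fk b).body = vorB b := (hK1 ι ω b hb).1
  have hi : ({i} : Finset ω).Nonempty ∧ ({i} : Finset ω) ≠ univ := by
    refine ⟨singleton_nonempty i, fun h => ?_⟩
    have := congrArg Finset.card h
    rw [card_singleton, card_univ] at this
    omega
  have hbi : bS b {i} = b i := by simp [bS]
  obtain ⟨f, hf, hft⟩ := hK2 ι ω b hb (fun o => if o = i then 0 else 1)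
  have hfi : Tight b f {i} := (hft {i} hi.1 hi.2).2 (by
    intro k hk j hj _
    rw [mem_singleton] at hk hj
    simp [hk, hj])
  refine ⟨idx b {i} hi, ?_, ?_, ?_⟩
  · refine ⟨f, hbody ▸ hf, ?_⟩
    intro j
    obtain ⟨K, hK, rfl⟩ := exists_idx j
    rw [act_idx]
    constructor
    · intro h
      rw [hft K hK.1 hK.2] at h
      by_contra hne
      have hne' : K ≠ {i} := fun e => hne (by subst e; rfl)
      obtain ⟨k, hk, hki, j, hj, ha⟩ := only_i hb hK0 h2c i K hK.1 hK.2 hne'
      have := h k hk j hj ha
      simp only [if_neg hki] at this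
      split at this <;> omega
    · intro e
      have := idx_inj e
      subst this
      exact hfi
  · intro x
    rw [hbody, act_idx, u_idx, ← hbi]
    constructor
    · rintro ⟨hx, ht⟩
      refine ⟨vor_shift hx ht, fun y hy => ?_⟩
      have h1 := le_all (vor_neg hy) {i}
      rw [inner_neg_right] at h1
      rw [inner_sub_right, real_inner_self_eq_norm_sq]
      unfold Tight at ht
      linarith
    · rintro ⟨hx, hmin⟩
      have h1 := hmin (-f) (vor_neg hf)
      have h2 := le_all (vor_neg hx) {i}
      rw [inner_neg_right] at h1 h2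
      rw [inner_sub_right, real_inner_self_eq_norm_sq] at h1 h2
      have ht : Tight b x {i} := by
        unfold Tight at hfi ⊢
        linarith
      exact ⟨vor_unshift hx ht, ht⟩
  · obtain ⟨σ, hinj, hσmin, hst⟩ := hK4 ω (Adj b) (fun _ _ => adj_symm)
      (fun K h1 h2 => ((hK0 ι ω b hb).1 K h1 h2).2) h2c hcard i
    obtain ⟨v, hv, hvt⟩ := hK2 ι ω b hb σ
    have hev : ∀ᶠ s in 𝓝 v, ∀ K : Finset ω, Tight b s K → Tight b v K := by
      rw [Filter.eventually_all]
      intro K
      by_cases hK : Tight b v K
      · exact Filter.Eventually.of_forall fun _ _ => hK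
      · have hc : ContinuousAt (fun s : E ι => ⟪bS b K, s⟫_ℝ) v := by fun_prop
        exact (hc.eventually_ne hK).mono fun s hs ht => absurd ht hs
    obtain ⟨ε, hε, hball⟩ := Metric.eventually_nhds_iff.1 hev
    refine ⟨v, hbody ▸ hv, ?_, ?_, ε, hε, ?_⟩
    · rw [act_idx, hvt {i} hi.1 hi.2]
      intro k hk j hj _
      rw [mem_singleton] at hk hj
      rw [hk]
      exact hσmin j hj
    · intro z hz
      have hseg : ∀ m : ℤ, ⟪bS b (univ.filter fun o => σ o ≤ m), z⟫_ℝ = 0 := by
        intro m
        by_cases h1 : (univ.filter fun o => σ o ≤ m).Nonempty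
        · by_cases h2 : (univ.filter fun o => σ o ≤ m) = univ
          · rw [h2, bS_univ hb, inner_zero_left]
          · have := hz (idx b _ ⟨h1, h2⟩) ((act_idx _ _ _).2 ((hvt _ h1 h2).2 (by
              intro k hk j hj _
              simp only [mem_filter, mem_univ, true_and] at hk hj
              omega)))
            rwa [u_idx] at this
        · rw [not_nonempty_iff_eq_empty] at h1
          rw [h1]
          simp [bS]
      have hbo : ∀ o, ⟪b o, z⟫_ℝ = 0 := by
        intro o
        have e : (univ.filter fun o' => σ o' ≤ σ o)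
            = {o} ∪ (univ.filter fun o' => σ o' ≤ σ o - 1) := by
          ext o'
          simp only [mem_filter, mem_univ, true_and, mem_union, mem_singleton]
          constructor
          · intro h
            by_cases h' : σ o' = σ o
            · exact Or.inl (hinj h')
            · right; omega
          · rintro (rfl | h)
            · exact le_rfl
            · omega
        have h1 := hseg (σ o)
        rw [e, bS_union (by simp), inner_add_left, hseg (σ o - 1), add_zero] at h1
        simpa [bS] using h1
      have h1 : (⊤ : Submodule ℝ (E ι)) ≤ (Submodule.span ℝ {z})ᗮ := by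
        refine hb.span.trans (Submodule.span_le.2 ?_)
        rintro _ ⟨o, rfl⟩
        rw [SetLike.mem_coe, Submodule.mem_orthogonal_singleton_iff_inner_left]
        exact hbo o
      have h2 := h1 (Submodule.mem_top : z ∈ ⊤)
      rw [Submodule.mem_orthogonal_singleton_iff_inner_left] at h2
      exact inner_self_eq_zero.1 h2
    · rintro s hs his hsv ⟨j, hji, hjs⟩ η hη
      rw [hbody] at hs
      obtain ⟨K, hK, rfl⟩ := exists_idx j
      rw [act_idx] at his hjs
      have hKi : K ≠ {i} := fun e => hji (by subst e; rfl)
      have hup : ∀ K : Finset ω, K.Nonempty → K ≠ univ → Tight b s K →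
          ∀ k ∈ K, ∀ j, j ∉ K → Adj b k j → σ k < σ j := fun K h1 h2 ht =>
        (hvt K h1 h2).1 (hball (by rwa [dist_eq_norm]) K ht)
      have hiK : i ∈ K := by
        by_contra hiK
        obtain ⟨k, hk, hkmin⟩ := exists_min_image K σ hK.1
        have hki : k ≠ i := fun e => hiK (e ▸ hk)
        by_cases ha : Adj b k i
        · have h1 := hup K hK.1 hK.2 hjs k hk i hiK ha
          have h2 := hσmin k hki
          omega
        · obtain ⟨⟨j, hj, haj, hlt⟩, -⟩ := hst k hki ha
          by_cases hjK : j ∈ K
          · have := hkmin j hjK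
            omega
          · have := hup K hK.1 hK.2 hjs k hk j hjK haj
            omega
      obtain ⟨C, hCn, hiC, hJn, htC, hCc, hJc⟩ := good_set hb h2c hs his hiK hKi hK.2 hjs
      have hiC' : i ∈ Cᶜ := mem_compl.2 hiC
      have hCu : Cᶜ ≠ univ := by
        intro h
        obtain ⟨c, hc⟩ := hCn
        exact (mem_compl.1 (h ▸ mem_univ c : c ∈ Cᶜ)) hc
      have hupC := hup Cᶜ ⟨i, hiC'⟩ hCu htC
      have hJi : ∃ k ∈ (Cᶜ).erase i, Adj b k i := by
        obtain ⟨k, hk, hkmin⟩ := exists_min_image ((Cᶜ).erase i) σ hJn
        have hki : k ≠ i := ne_of_mem_erase hk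
        refine ⟨k, hk, ?_⟩
        by_contra ha
        obtain ⟨⟨j, hj, haj, hlt⟩, -⟩ := hst k hki ha
        by_cases hjC : j ∈ C
        · have := hupC k (mem_of_mem_erase hk) j (fun h => (mem_compl.1 h) hjC) haj
          omega
        · have := hkmin j (mem_erase.2 ⟨hj, mem_compl.2 hjC⟩)
          omega
      have hCi : ∃ c ∈ C, Adj b c i := by
        obtain ⟨c, hc, hcmax⟩ := exists_max_image C σ hCn
        have hci : c ≠ i := fun e => hiC (e ▸ hc)
        refine ⟨c, hc, ?_⟩
        by_contra ha
        obtain ⟨-, j, hj, haj, hlt⟩ := hst c hci ha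
        by_cases hjC : j ∈ C
        · have := hcmax j hjC
          omega
        · have := hupC j (mem_compl.2 hjC) c (fun h => (mem_compl.1 h) hc) (adj_symm haj)
          omega
      have hJC : ∃ k ∈ (Cᶜ).erase i, ∃ j ∈ C, Adj b k j := by
        obtain ⟨c, hc⟩ := hCn
        obtain ⟨k, hk, j, hji, hj, ha⟩ := h2c i ((Cᶜ).erase i) (notMem_erase _ _) hJn
          ⟨c, fun e => hiC (e ▸ hc), fun h => (mem_compl.1 (mem_of_mem_erase h)) hc⟩
        refine ⟨k, hk, j, ?_, ha⟩
        by_contra hjC
        exact hj (mem_erase.2 ⟨hji, mem_compl.2 hjC⟩)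
      set ρ : ω → ℤ := fun o => if o = i then 0 else if o ∈ C then 2 else 1 with hρ
      have ρi : ρ i = 0 := by simp [hρ]
      have ρC : ∀ o ∈ C, ρ o = 2 := by
        intro o ho
        have : o ≠ i := fun e => hiC (e ▸ ho)
        simp [hρ, this, ho]
      have ρJ : ∀ o ∈ (Cᶜ).erase i, ρ o = 1 := by
        intro o ho
        rw [mem_erase, mem_compl] at ho
        simp [hρ, ho.1, ho.2]
      have hcase : ∀ o, o = i ∨ o ∈ C ∨ o ∈ (Cᶜ).erase i := by
        intro o
        by_cases h1 : o = i
        · exact Or.inl h1
        · by_cases h2 : o ∈ C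
          · exact Or.inr (Or.inl h2)
          · exact Or.inr (Or.inr (mem_erase.2 ⟨h1, mem_compl.2 h2⟩))
      obtain ⟨m, hm, hmt⟩ := hK2 ι ω b hb ρ
      have hmt' : ∀ M : Finset ω, M.Nonempty → M ≠ univ → (Tight b m M ↔ M = {i} ∨ M = Cᶜ) := by
        intro M hM hMu
        rw [hmt M hM hMu]
        constructor
        · intro h
          have hJ := split_or (M := M) hJc (by
            intro a ha c hc haM hcM had
            have := h a haM c hcM had
            rw [ρJ a ha, ρJ c hc] at this
            omega)
          have hC := split_or (M := M) hCc (by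
            intro a ha c hc haM hcM had
            have := h a haM c hcM had
            rw [ρC a ha, ρC c hc] at this
            omega)
          obtain ⟨k1, hk1, ha1⟩ := hJi
          obtain ⟨c1, hc1, ha2⟩ := hCi
          obtain ⟨k2, hk2, c2, hc2, ha3⟩ := hJC
          by_cases hiM : i ∈ M
          · rcases hJ with hJ | hJ
            · rcases hC with hC | hC
              · exfalso
                apply hMu
                apply eq_univ_of_forall
                intro o
                rcases hcase o with rfl | ho | ho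
                · exact hiM
                · exact hC ho
                · exact hJ ho
              · right
                ext o
                rw [mem_compl]
                constructor
                · intro ho h'
                  exact hC o h' ho
                · intro ho
                  rcases hcase o with rfl | ho' | ho'
                  · exact hiM
                  · exact absurd ho' ho
                  · exact hJ ho'
            · rcases hC with hC | hC
              · exfalso
                have := h c2 (hC hc2) k2 (hJ k2 hk2) (adj_symm ha3)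
                rw [ρC c2 hc2, ρJ k2 hk2] at this
                omega
              · left
                ext o
                rw [mem_singleton]
                constructor
                · intro ho
                  rcases hcase o with rfl | ho' | ho'
                  · rfl
                  · exact absurd ho (hC o ho')
                  · exact absurd ho (hJ o ho')
                · rintro rfl
                  exact hiM
          · exfalso
            rcases hJ with hJ | hJ
            · have := h k1 (hJ hk1) i hiM ha1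
              rw [ρJ k1 hk1, ρi] at this
              omega
            · rcases hC with hC | hC
              · have := h c1 (hC hc1) i hiM ha2
                rw [ρC c1 hc1, ρi] at this
                omega
              · obtain ⟨o, ho⟩ := hM
                rcases hcase o with rfl | ho' | ho'
                · exact hiM ho
                · exact hC o ho' ho
                · exact hJ o ho' ho
        · rintro (rfl | rfl)
          · intro k hk j hj _
            rw [mem_singleton] at hk hj
            rw [hk, ρi]
            rcases hcase j with h | h | h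
            · exact absurd h hj
            · rw [ρC j h]; omega
            · rw [ρJ j h]; omega
          · intro k hk j hj _
            have hjC : j ∈ C := by
              by_contra h
              exact hj (mem_compl.2 h)
            rw [ρC j hjC]
            rcases hcase k with h | h | h
            · rw [h, ρi]; omega
            · exact absurd h (mem_compl.1 hk)
            · rw [ρJ k h]; omega
      -- the point p
      have hd : 0 < min (1 / 2 : ℝ) (η / (2 * (‖m - s‖ + 1))) := by positivity
      obtain ⟨δ, hδ⟩ : ∃ δ, δ = min (1 / 2 : ℝ) (η / (2 * (‖m - s‖ + 1))) := ⟨_, rfl⟩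
      rw [← hδ] at hd
      have hδ1 : δ ≤ 1 / 2 := hδ ▸ min_le_left _ _
      have hδ2 : δ ≤ η / (2 * (‖m - s‖ + 1)) := hδ ▸ min_le_right _ _
      set p : E ι := s + δ • (m - s) with hp
      have hinner : ∀ K : Finset ω, ⟪bS b K, p⟫_ℝ
          = (1 - δ) * ⟪bS b K, s⟫_ℝ + δ * ⟪bS b K, m⟫_ℝ := by
        intro K
        rw [hp, inner_add_right, real_inner_smul_right, inner_sub_right]
        ring
      have hpv : p ∈ vorB b := by
        rw [mem_vorB hK1 hb]
        intro K _ _
        rw [hinner]
        have h1 := le_all hs K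
        have h2 := le_all hm K
        nlinarith
      have hpt0 : ∀ K : Finset ω, Tight b p K ↔ Tight b s K ∧ Tight b m K := by
        intro K
        have h1 := le_all hs K
        have h2 := le_all hm K
        unfold Tight
        rw [hinner]
        constructor
        · intro h
          constructor <;> nlinarith
        · rintro ⟨h3, h4⟩
          rw [h3, h4]
          ring
      have hpt : ∀ K : Finset ω, K.Nonempty → K ≠ univ → (Tight b p K ↔ K = {i} ∨ K = Cᶜ) := by
        intro K h1 h2
        rw [hpt0, hmt' K h1 h2]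
        constructor
        · exact fun h => h.2
        · intro h
          refine ⟨?_, h⟩
          rcases h with rfl | rfl
          · exact his
          · exact htC
      refine ⟨p, ?_, ?_, ?_⟩
      · have : p - s = δ • (m - s) := by rw [hp]; abel
        rw [this, norm_smul, Real.norm_of_nonneg hd.le]
        have h0 := norm_nonneg (m - s)
        calc δ * ‖m - s‖ ≤ η / (2 * (‖m - s‖ + 1)) * ‖m - s‖ := by gcongr
          _ = η * (‖m - s‖ / (2 * (‖m - s‖ + 1))) := by ring
          _ < η * 1 := by
            apply mul_lt_mul_of_pos_left _ hη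
            rw [div_lt_one (by positivity)]
            linarith
          _ = η := mul_one η
      · rw [act_idx, hpt {i} hi.1 hi.2]
        exact Or.inl rfl
      · exact six hK0 hK1 hb hiC' hJn (by rw [compl_compl]; exact hCn)
          (by rw [compl_compl]; exact hCi) hpv hpt hi

end Pool.Agent.Helper90.SPX
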